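import Pool.Agent.H28.GUG.Targets

/-!
The module `LIG` of part C of the project GU: linear configurations (arbitrary linear forms) are
controlled by the uniformity norms of one function.
-/

set_option autoImplicit false

open Finset Filter Topology

namespace Pool.Agent.H79.GUC

open Pool.Agent.H24.T2 (box box_card mem_box)
open Pool.Agent.H31.DP
open Pool.Agent.H31.GUF
open Pool.Agent.H28.GUG
open Pool.Agent.H28.GU (Gw)

private theorem norm_ee' (x : ℝ) : ‖ee x‖ = 1 := by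
  unfold ee
  rw [Complex.norm_exp]
  simp

private theorem ee_add' (x y : ℝ) : ee (x + y) = ee x * ee y := by
  unfold ee
  rw [← Complex.exp_add]
  congr 1
  push_cast
  ring

theorem lg_sum {q : ℕ} [NeZero q] (A : Finset ℤ) (hA : ∀ x ∈ A, ∀ y ∈ A, |y - x| < (q : ℤ))
    (f : ZMod q → ℂ) (hf : ∀ z : ZMod q, (∀ x ∈ A, (x : ZMod q) ≠ z) → f z = 0) :
    ∑ z : ZMod q, f z = ∑ x ∈ A, f (x : ZMod q) := by
  classical
  rw [← Finset.sum_image (f := f) (g := fun x : ℤ => (x : ZMod q)) (s := A)]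
  · symm
    apply Finset.sum_subset (Finset.subset_univ _)
    intro z _ hz
    apply hf
    intro x hx hxz
    exact hz (Finset.mem_image.2 ⟨x, hx, hxz⟩)
  · intro a ha b hb hab
    simp only at hab
    rw [ZMod.intCast_eq_intCast_iff_dvd_sub] at hab
    have h1 := Int.eq_zero_of_abs_lt_dvd hab (hA a ha b hb)
    omega

theorem lg_diff (N : ℕ) (s : ℤ) (P : ℤ → ℂ) (hP : ∀ n, ‖P n‖ ≤ 1) :
    ‖∑ n ∈ Finset.Icc (1 : ℤ) N, P n‖ ≤
      ‖∑ n ∈ Finset.Icc (1 - s) ((N : ℤ) - s), P n‖ + 2 * (s.natAbs : ℝ) := by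
  classical
  set A := Finset.Icc (1 : ℤ) N with hA
  set B := Finset.Icc (1 - s) ((N : ℤ) - s) with hB
  have hAB : (A \ B).card ≤ s.natAbs := by
    rcases le_or_gt 0 s with hs | hs
    · have h1 : A \ B ⊆ Finset.Icc ((N : ℤ) - s + 1) N := by
        intro n hn
        rw [Finset.mem_sdiff, hA, hB, Finset.mem_Icc, Finset.mem_Icc] at hn
        rw [Finset.mem_Icc]
        omega
      refine (Finset.card_le_card h1).trans ?_
      rw [Int.card_Icc]
      omega
    · have h1 : A \ B ⊆ Finset.Icc 1 (-s) := by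
        intro n hn
        rw [Finset.mem_sdiff, hA, hB, Finset.mem_Icc, Finset.mem_Icc] at hn
        rw [Finset.mem_Icc]
        omega
      refine (Finset.card_le_card h1).trans ?_
      rw [Int.card_Icc]
      omega
  have hBA : (B \ A).card ≤ s.natAbs := by
    rcases le_or_gt 0 s with hs | hs
    · have h1 : B \ A ⊆ Finset.Icc (1 - s) 0 := by
        intro n hn
        rw [Finset.mem_sdiff, hA, hB, Finset.mem_Icc, Finset.mem_Icc] at hn
        rw [Finset.mem_Icc]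
        omega
      refine (Finset.card_le_card h1).trans ?_
      rw [Int.card_Icc]
      omega
    · have h1 : B \ A ⊆ Finset.Icc ((N : ℤ) + 1) (N - s) := by
        intro n hn
        rw [Finset.mem_sdiff, hA, hB, Finset.mem_Icc, Finset.mem_Icc] at hn
        rw [Finset.mem_Icc]
        omega
      refine (Finset.card_le_card h1).trans ?_
      rw [Int.card_Icc]
      omega
  have hsmall : ∀ S : Finset ℤ, S.card ≤ s.natAbs → ‖∑ n ∈ S, P n‖ ≤ (s.natAbs : ℝ) := by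
    intro S hS
    refine (norm_sum_le _ _).trans ((Finset.sum_le_sum (fun n _ => hP n)).trans ?_)
    rw [Finset.sum_const, nsmul_eq_mul, mul_one]
    exact_mod_cast hS
  have h1 : ∑ n ∈ A, P n = ∑ n ∈ B, P n + (∑ n ∈ A \ B, P n - ∑ n ∈ B \ A, P n) := by
    rw [Finset.sum_sdiff_sub_sum_sdiff]
    ring
  rw [h1]
  refine (norm_add_le _ _).trans ?_
  have h2 := norm_sub_le (∑ n ∈ A \ B, P n) (∑ n ∈ B \ A, P n)
  have h3 := hsmall _ hAB
  have h4 := hsmall _ hBA
  linarith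

theorem lg_unim (z : ℂ) : ∃ c : ℂ, ‖c‖ ≤ 1 ∧ c * z = (‖z‖ : ℂ) := by
  by_cases hz : z = 0
  · exact ⟨0, by simp, by simp [hz]⟩
  · have h1 : (‖z‖ : ℂ) ≠ 0 := by
      rw [Complex.ofReal_ne_zero]
      exact norm_ne_zero_iff.2 hz
    refine ⟨(starRingEnd ℂ) z / ‖z‖, ?_, ?_⟩
    · rw [norm_div, RCLike.norm_conj, Complex.norm_real, norm_norm,
        div_self (norm_ne_zero_iff.2 hz)]
    · rw [div_mul_eq_mul_div, mul_comm, Complex.mul_conj, div_eq_iff h1, Complex.normSq_eq_norm_sq]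
      push_cast
      ring

theorem lg_val {q : ℕ} [NeZero q] {z : ℤ} (hz : 2 * |z| < q) : ((z : ZMod q)).valMinAbs = z := by
  rw [ZMod.valMinAbs_spec]
  refine ⟨rfl, ?_⟩
  have h1 := neg_abs_le z
  have h2 := le_abs_self z
  constructor <;> omega

theorem lg_ne {q : ℕ} {k : ℤ} (hk : k ≠ 0) (hkq : |k| < q) : (k : ZMod q) ≠ 0 := by
  intro h
  rw [ZMod.intCast_zmod_eq_zero_iff_dvd] at h
  exact hk (Int.eq_zero_of_abs_lt_dvd h hkq)

theorem lg_cut {q M : ℕ} [NeZero q] (hq : 2 * M < q) (g : ℤ → ℝ) (hg : ∀ m, m < 1 → g m = 0)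
    {w : ℤ} (hw : |w| ≤ M) : cut q M g ((w : ℤ) : ZMod q) = g w := by
  unfold cut
  have h1 := neg_abs_le w
  have h2 := le_abs_self w
  rcases le_or_gt 0 w with h0 | h0
  · obtain ⟨n, rfl⟩ := Int.eq_ofNat_of_zero_le h0
    have hn : ((n : ℕ) : ZMod q).val = n := ZMod.val_cast_of_lt (by omega)
    rw [Int.cast_natCast, hn]
    by_cases hn1 : 1 ≤ n
    · rw [if_pos ⟨hn1, by omega⟩]
    · rw [if_neg (fun h => hn1 h.1), hg _ (by omega)]
  · obtain ⟨n, hn⟩ := Int.eq_ofNat_of_zero_le (by omega : 0 ≤ w + q)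
    have hn1 : ((w : ℤ) : ZMod q) = ((n : ℕ) : ZMod q) := by
      have h3 : ((w + q : ℤ) : ZMod q) = ((n : ℤ) : ZMod q) := by rw [hn]
      push_cast at h3
      rw [ZMod.natCast_self, add_zero] at h3
      exact h3
    have hn2 : ((n : ℕ) : ZMod q).val = n := ZMod.val_cast_of_lt (by omega)
    rw [hn1, hn2, if_neg (fun h => by omega), hg _ (by omega)]

theorem dot_le' {R : ℕ} (N : ℕ) (b t : Fin R → ℤ) (ht : t ∈ box R N) :
    |dot b t| ≤ (∑ i, |b i|) * N := by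
  rw [mem_box] at ht
  unfold dot
  refine (Finset.abs_sum_le_sum_abs _ _).trans ?_
  rw [Finset.sum_mul]
  apply Finset.sum_le_sum
  intro i _
  rw [abs_mul]
  exact mul_le_mul_of_nonneg_left (ht i) (abs_nonneg _)

/-- The terms of the sum. -/
noncomputable def PP {R J : ℕ} (a₀ : ℤ) (b₀ : Fin R → ℤ) (a : Fin J → ℤ) (b : Fin J → Fin R → ℤ)
    (g : ℤ → ℝ) (F : Fin J → ℤ → ℂ) (θ : ℝ) (t : Fin R → ℤ) (n : ℤ) : ℂ :=
  ((g (a₀ * n + dot b₀ t) : ℝ) : ℂ) * ee (n * θ) * ∏ j, F j (a j * n + dot (b j) t)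

theorem norm_PP {R J : ℕ} (a₀ : ℤ) (b₀ : Fin R → ℤ) (a : Fin J → ℤ) (b : Fin J → Fin R → ℤ)
    (g : ℤ → ℝ) (F : Fin J → ℤ → ℂ) (θ : ℝ) (hg : ∀ m, |g m| ≤ 1) (hF : ∀ j m, ‖F j m‖ ≤ 1)
    (t : Fin R → ℤ) (n : ℤ) : ‖PP a₀ b₀ a b g F θ t n‖ ≤ 1 := by
  unfold PP
  rw [norm_mul, norm_mul, norm_ee', mul_one, Complex.norm_real, Real.norm_eq_abs]
  have h1 : ‖∏ j, F j (a j * n + dot (b j) t)‖ ≤ 1 := by
    rw [norm_prod]
    exact Finset.prod_le_one (fun _ _ => norm_nonneg _) (fun j _ => hF j _)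
  calc |g (a₀ * n + dot b₀ t)| * ‖∏ j, F j (a j * n + dot (b j) t)‖ ≤ 1 * 1 :=
        mul_le_mul (hg _) h1 (norm_nonneg _) zero_le_one
    _ = 1 := one_mul 1

/-- The inner sum on the cyclic group. -/
noncomputable def II {q R J : ℕ} [NeZero q] (G : ZMod q → ℝ) (a₀ : ZMod q)
    (b₀ : Fin R → ZMod q) (a : Fin J → ZMod q) (b : Fin J → Fin R → ZMod q)
    (F : Fin J → ZMod q → ℂ) (t : Fin R → ZMod q) : ℂ :=
  ∑ n : ZMod q, ((G (a₀ * n + ∑ i, b₀ i * t i) : ℝ) : ℂ) * ∏ j, F j (a j * n + ∑ i, b j i * t i)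

/-- The value of the inner sum at the image of `(s, t)`. -/
theorem lg_inner {q R J : ℕ} [NeZero q] (N C : ℕ) (a₀ : ℤ) (b₀ : Fin R → ℤ) (a : Fin J → ℤ)
    (b : Fin J → Fin R → ℤ) (g : ℤ → ℝ) (F : Fin J → ℤ → ℂ) (θ : ℝ)
    (hg0 : ∀ m, m < 1 → g m = 0) (hC : 2 * |a₀| + ∑ i, |b₀ i| ≤ (C : ℤ))
    (hqC : 2 * (C * N) < q) (hqN : 4 * N < q)
    (hqj : ∀ j, 2 * ((2 * |a j| + ∑ i, |b j i|) * N) < (q : ℤ))
    (s : ℤ) (hs : |s| ≤ N) (t : Fin R → ℤ) (ht : t ∈ box R N) :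
    II (q := q) (R := R + 1) (J := J + 1) (cut q (C * N) g) ((a₀ : ℤ) : ZMod q)
      (Fin.cons 0 (fun i => ((b₀ i : ℤ) : ZMod q)))
      (Fin.cons 1 (fun j => ((a j : ℤ) : ZMod q)))
      (Fin.cons (Fin.cons 1 (fun _ => 0)) (fun j => Fin.cons 0 (fun i => ((b j i : ℤ) : ZMod q))))
      (Fin.cons (fun z => if 1 ≤ z.valMinAbs ∧ z.valMinAbs ≤ N then ee ((z.valMinAbs : ℝ) * θ)
        else 0) (fun j z => F j z.valMinAbs))
      (Fin.cons ((s : ℤ) : ZMod q) (fun i => ((t i : ℤ) : ZMod q))) =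
      ee ((s : ℝ) * θ) * ∑ n ∈ Finset.Icc (1 - s) ((N : ℤ) - s), PP a₀ b₀ a b g F θ t n := by
  classical
  have hs' := abs_le.1 hs
  have hdot : ∀ c : Fin R → ℤ, ∑ i, ((c i : ℤ) : ZMod q) * ((t i : ℤ) : ZMod q) =
      ((dot c t : ℤ) : ZMod q) := by
    intro c
    unfold dot
    push_cast
    rfl
  unfold II
  simp only [Fin.sum_univ_succ, Fin.prod_univ_succ, Fin.cons_zero, Fin.cons_succ, zero_mul,
    one_mul, zero_add, Finset.sum_const_zero, add_zero, hdot]
  rw [lg_sum (Finset.Icc (1 - s) ((N : ℤ) - s))]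
  · rw [Finset.mul_sum]
    apply Finset.sum_congr rfl
    intro n hn
    rw [Finset.mem_Icc] at hn
    have hn2 : |n| ≤ 2 * N := by
      rw [abs_le]
      constructor <;> omega
    have hw : ∀ (α : ℤ) (β : Fin R → ℤ), |α * n + dot β t| ≤ (2 * |α| + ∑ i, |β i|) * N := by
      intro α β
      refine (abs_add_le _ _).trans ?_
      rw [abs_mul]
      have h1 := dot_le' N β t ht
      have h2 : |α| * |n| ≤ |α| * (2 * N) := mul_le_mul_of_nonneg_left hn2 (abs_nonneg _)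
      linarith
    have e1 : cut q (C * N) g (((a₀ : ℤ) : ZMod q) * ((n : ℤ) : ZMod q) +
        ((dot b₀ t : ℤ) : ZMod q)) = g (a₀ * n + dot b₀ t) := by
      have h1 : ((a₀ : ℤ) : ZMod q) * ((n : ℤ) : ZMod q) + ((dot b₀ t : ℤ) : ZMod q) =
          ((a₀ * n + dot b₀ t : ℤ) : ZMod q) := by push_cast; rfl
      rw [h1]
      apply lg_cut hqC g hg0
      refine (hw a₀ b₀).trans ?_
      push_cast
      exact mul_le_mul_of_nonneg_right hC (by positivity)
    have e2 : ((n : ℤ) : ZMod q) + ((s : ℤ) : ZMod q) = ((n + s : ℤ) : ZMod q) := by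
      push_cast; rfl
    have e3 : (((n + s : ℤ)) : ZMod q).valMinAbs = n + s := by
      apply lg_val
      have : |n + s| ≤ N := by
        rw [abs_le]
        constructor <;> omega
      omega
    have e4 : ∀ j, (((a j : ℤ) : ZMod q) * ((n : ℤ) : ZMod q) +
        ((dot (b j) t : ℤ) : ZMod q)).valMinAbs = a j * n + dot (b j) t := by
      intro j
      have h1 : ((a j : ℤ) : ZMod q) * ((n : ℤ) : ZMod q) + ((dot (b j) t : ℤ) : ZMod q) =
          ((a j * n + dot (b j) t : ℤ) : ZMod q) := by push_cast; rfl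
      rw [h1]
      apply lg_val
      have h2 := hw (a j) (b j)
      have h3 := hqj j
      linarith
    rw [e1, e2, e3, if_pos (by constructor <;> omega)]
    simp only [e4]
    unfold PP
    have e5 : ee ((((n + s : ℤ) : ℤ) : ℝ) * θ) = ee ((s : ℝ) * θ) * ee ((n : ℝ) * θ) := by
      rw [← ee_add']
      congr 1
      push_cast
      ring
    rw [e5]
    ring
  · intro x hx y hy
    rw [Finset.mem_Icc] at hx hy
    rw [abs_lt]
    constructor <;> omega
  · intro z hz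
    rw [if_neg, zero_mul, mul_zero]
    intro h
    set m : ℤ := (z + ((s : ℤ) : ZMod q)).valMinAbs with hm
    apply hz (m - s)
    · rw [Finset.mem_Icc]
      constructor <;> omega
    · push_cast
      rw [hm, ZMod.coe_valMinAbs]
      ring

theorem pf_LIG (hBR : G_BR) (hGV : G_GV) : G_LI := by
  classical
  intro R J C a₀ b₀ a b η ha₀ hab hC hη
  set κ : ℝ := min 1 (η / (4 * 3 ^ R)) with hκ
  have hκ0 : 0 < κ := lt_min one_pos (by positivity)
  have hκ1 : κ ≤ 1 := min_le_left _ _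
  have hκ2 : κ ≤ η / (4 * 3 ^ R) := min_le_right _ _
  set C1 : ℕ := C + 4 + ∑ j, (2 * (a j).natAbs + ∑ i, (b j i).natAbs) with hC1
  have hC1r : (0 : ℝ) < C1 := by
    have : 0 < C1 := by omega
    exact_mod_cast this
  have hC0 : 0 < C := by
    have h1 : 0 ≤ ∑ i, |b₀ i| := Finset.sum_nonneg (fun _ _ => abs_nonneg _)
    have h2 : 0 < |a₀| := abs_pos.2 ha₀
    omega
  set E : ℕ := 2 ^ (J + 2) with hE
  have hE0 : E ≠ 0 := by positivity
  set μ : ℝ := η * κ / (2 * (4 * (C1 : ℝ)) ^ (R + 2)) with hμ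
  have hμ0 : 0 < μ := by positivity
  set N₀ : ℕ := 1 + a₀.natAbs + ∑ j, ∑ i, (a₀ * b j i - a j * b₀ i).natAbs with hN₀
  refine ⟨μ ^ E, by positivity, N₀, ?_⟩
  intro N hNN g hg hg0 hU F θ hF
  have hN : 0 < N := by omega
  have hNr : (0 : ℝ) < N := by exact_mod_cast hN
  obtain ⟨q, hqp, hq1, hq2⟩ := Nat.exists_prime_lt_and_le_two_mul (2 * C1 * N)
    (Nat.mul_ne_zero (by omega) (by omega))
  have hfq : Fact q.Prime := ⟨hqp⟩
  have hnq : NeZero q := ⟨hqp.ne_zero⟩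
  have hqr : (0 : ℝ) < q := by exact_mod_cast hqp.pos
  have hC1N : C * N + 4 * N + (∑ j, (2 * (a j).natAbs + ∑ i, (b j i).natAbs)) * N = C1 * N := by
    rw [hC1]; ring
  have hqC : 2 * (C * N) < q := by
    have h2 : 2 * C1 * N = 2 * (C1 * N) := by ring
    have h3 : C * N ≤ C1 * N := by
      rw [← hC1N]; exact (Nat.le_add_right _ _).trans (Nat.le_add_right _ _)
    omega
  have hqN : 4 * N < q := by
    have h2 : 2 * C1 * N = 2 * (C1 * N) := by ring
    have h3 : 4 * N ≤ C1 * N := Nat.mul_le_mul_right _ (by omega)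
    omega
  have hqj : ∀ j, 2 * ((2 * |a j| + ∑ i, |b j i|) * N) < (q : ℤ) := by
    intro j
    have h1 : 2 * (a j).natAbs + ∑ i, (b j i).natAbs ≤
        ∑ j, (2 * (a j).natAbs + ∑ i, (b j i).natAbs) :=
      Finset.single_le_sum (f := fun j => 2 * (a j).natAbs + ∑ i, (b j i).natAbs)
        (fun i _ => Nat.zero_le _) (Finset.mem_univ j)
    have h2 : 2 * (a j).natAbs + ∑ i, (b j i).natAbs ≤ C1 := by omega
    have h3 : 2 * ((2 * (a j).natAbs + ∑ i, (b j i).natAbs) * N) < q := by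
      have h4 := Nat.mul_le_mul_right N h2
      have h5 : 2 * C1 * N = 2 * (C1 * N) := by ring
      omega
    have h6 : ((2 * ((2 * (a j).natAbs + ∑ i, (b j i).natAbs) * N) : ℕ) : ℤ) < (q : ℤ) := by
      exact_mod_cast h3
    push_cast at h6
    exact h6
  have hqa : |a₀| < (q : ℤ) := by
    rw [Int.abs_eq_natAbs]
    have : a₀.natAbs < q := by omega
    exact_mod_cast this
  set X : ℕ := ⌊κ * N⌋₊ with hX
  have hX1 : (X : ℝ) ≤ κ * N := Nat.floor_le (by positivity)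
  have hX2 : κ * N < X + 1 := Nat.lt_floor_add_one _
  have hXN : X ≤ N := by
    have : (X : ℝ) ≤ N := hX1.trans (by nlinarith)
    exact_mod_cast this
  -- the data on the cyclic group
  set b₀' : Fin (R + 1) → ZMod q := Fin.cons 0 (fun i => ((b₀ i : ℤ) : ZMod q)) with hb₀'
  set a' : Fin (J + 1) → ZMod q := Fin.cons 1 (fun j => ((a j : ℤ) : ZMod q)) with ha'
  set b' : Fin (J + 1) → Fin (R + 1) → ZMod q :=
    Fin.cons (Fin.cons 1 (fun _ => 0)) (fun j => Fin.cons 0 (fun i => ((b j i : ℤ) : ZMod q)))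
    with hb'
  set F' : Fin (J + 1) → ZMod q → ℂ :=
    Fin.cons (fun z => if 1 ≤ z.valMinAbs ∧ z.valMinAbs ≤ N then ee ((z.valMinAbs : ℝ) * θ)
        else 0) (fun j z => F j z.valMinAbs) with hF'
  set Is : (Fin (R + 1) → ZMod q) → ℂ := fun s =>
    II (cut q (C * N) g) ((a₀ : ℤ) : ZMod q) b₀' a' b' F' s with hIs
  set φ : ℤ × (Fin R → ℤ) → (Fin (R + 1) → ZMod q) := fun p =>
    Fin.cons ((p.1 : ℤ) : ZMod q) (fun i => ((p.2 i : ℤ) : ZMod q)) with hφ
  set B : Finset (ℤ × (Fin R → ℤ)) := (Finset.Icc (-(X : ℤ)) X) ×ˢ (box R N) with hB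
  have hφinj : Set.InjOn φ B := by
    intro p hp p' hp' hpp
    rw [hB, Finset.mem_coe, Finset.mem_product, Finset.mem_Icc, mem_box] at hp hp'
    have h1 := congrFun hpp 0
    simp only [hφ, Fin.cons_zero] at h1
    rw [ZMod.intCast_eq_intCast_iff_dvd_sub] at h1
    have h2 := Int.eq_zero_of_abs_lt_dvd h1 (by rw [abs_lt]; constructor <;> omega)
    apply Prod.ext
    · omega
    · funext i
      have h3 := congrFun hpp i.succ
      simp only [hφ, Fin.cons_succ] at h3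
      rw [ZMod.intCast_eq_intCast_iff_dvd_sub] at h3
      have h5 := abs_le.1 (hp.2 i)
      have h6 := abs_le.1 (hp'.2 i)
      have h4 := Int.eq_zero_of_abs_lt_dvd h3 (by rw [abs_lt]; constructor <;> omega)
      omega
  choose u hu1 hu2 using fun s : Fin (R + 1) → ZMod q => lg_unim (Is s)
  set c : (Fin (R + 1) → ZMod q) → ℂ := fun s => if s ∈ B.image φ then u s else 0 with hc
  have key := hGV (R + 1) (J + 1) q (cut q (C * N) g) c ((a₀ : ℤ) : ZMod q) b₀' a' b' F'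
    (by omega) ?_ ?_ ?_ (lg_ne ha₀ hqa) ?_
  rotate_left
  · intro x
    unfold cut
    split_ifs
    · exact hg _
    · simp
  · intro s
    simp only [hc]
    split_ifs
    · exact hu1 s
    · simp
  · intro j x
    refine Fin.cases ?_ (fun j => ?_) j
    · simp only [hF', Fin.cons_zero]
      split_ifs
      · rw [norm_ee']
      · simp
    · simp only [hF', Fin.cons_succ]
      exact hF _ _
  · intro j
    refine Fin.cases ?_ (fun j => ?_) j
    · refine ⟨0, ?_⟩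
      simp only [hb', ha', hb₀', Fin.cons_zero, mul_one, mul_zero]
      exact lg_ne ha₀ hqa
    · obtain ⟨i, hi⟩ := hab j
      refine ⟨i.succ, ?_⟩
      simp only [hb', ha', hb₀', Fin.cons_succ]
      rw [← sub_ne_zero]
      have h1 : ((a₀ : ℤ) : ZMod q) * ((b j i : ℤ) : ZMod q) -
          ((a j : ℤ) : ZMod q) * ((b₀ i : ℤ) : ZMod q) =
          ((a₀ * b j i - a j * b₀ i : ℤ) : ZMod q) := by push_cast; rfl
      rw [h1]
      apply lg_ne (sub_ne_zero.2 hi)
      rw [Int.abs_eq_natAbs]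
      have h2 : (a₀ * b j i - a j * b₀ i).natAbs ≤
          ∑ j, ∑ i, (a₀ * b j i - a j * b₀ i).natAbs :=
        (Finset.single_le_sum (f := fun i => (a₀ * b j i - a j * b₀ i).natAbs)
          (fun i _ => Nat.zero_le _) (Finset.mem_univ i)).trans
          (Finset.single_le_sum (f := fun j => ∑ i, (a₀ * b j i - a j * b₀ i).natAbs)
          (fun i _ => Nat.zero_le _) (Finset.mem_univ j))
      have h3 : (a₀ * b j i - a j * b₀ i).natAbs < q := by omega
      exact_mod_cast h3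
  have hVal : ∀ p ∈ B, ‖Is (φ p)‖ =
      ‖∑ n ∈ Finset.Icc (1 - p.1) ((N : ℤ) - p.1), PP a₀ b₀ a b g F θ p.2 n‖ := by
    intro p hp
    rw [hB, Finset.mem_product, Finset.mem_Icc] at hp
    have h1 := lg_inner (q := q) N C a₀ b₀ a b g F θ hg0 hC hqC hqN hqj p.1
      (by rw [abs_le]; constructor <;> omega) p.2 hp.2
    simp only [hIs, hφ, hb₀', ha', hb', hF']
    rw [h1, norm_mul, norm_ee', one_mul]
  set T : ℝ := ∑ p ∈ B, ‖∑ n ∈ Finset.Icc (1 - p.1) ((N : ℤ) - p.1),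
    PP a₀ b₀ a b g F θ p.2 n‖ with hT
  have hT0 : 0 ≤ T := Finset.sum_nonneg (fun _ _ => norm_nonneg _)
  have hLHS : ∑ s : Fin (R + 1) → ZMod q, c s * ∑ n : ZMod q,
      ((cut q (C * N) g (((a₀ : ℤ) : ZMod q) * n + ∑ i, b₀' i * s i) : ℝ) : ℂ) *
        ∏ j, F' j (a' j * n + ∑ i, b' j i * s i) = (T : ℂ) := by
    have h1 : ∀ s : Fin (R + 1) → ZMod q, c s * ∑ n : ZMod q,
        ((cut q (C * N) g (((a₀ : ℤ) : ZMod q) * n + ∑ i, b₀' i * s i) : ℝ) : ℂ) *
          ∏ j, F' j (a' j * n + ∑ i, b' j i * s i) =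
        if s ∈ B.image φ then (‖Is s‖ : ℂ) else 0 := by
      intro s
      simp only [hc]
      split_ifs
      · exact hu2 s
      · exact zero_mul _
    rw [Finset.sum_congr rfl (fun s _ => h1 s), ← Finset.sum_filter]
    have h2 : Finset.univ.filter (fun s => s ∈ B.image φ) = B.image φ := by
      ext s; simp
    rw [h2, Finset.sum_image hφinj, hT]
    push_cast
    apply Finset.sum_congr rfl
    intro p hp
    rw [hVal p hp]
  rw [hLHS, Complex.norm_real, Real.norm_of_nonneg hT0] at key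
  have hGw : Gw (J + 1 + 1) (cut q (C * N) g) ≤ μ ^ E * (q : ℝ) ^ (J + 3) := by
    rw [hBR (J + 1 + 1) (C * N) q g hqC]
    have h1 : (Uc (C * N) (J + 1 + 1) (Finset.Icc (1 : ℤ) ((C * N : ℕ) : ℤ))
        (fun n => ((g n : ℝ) : ℂ))).re =
        UU (J + 2) (C * N) (fun n => ((g n : ℝ) : ℂ)) * ((C * N : ℕ) : ℝ) ^ (J + 3) := by
      unfold UU
      have h2 : (0 : ℝ) < ((C * N : ℕ) : ℝ) := by exact_mod_cast Nat.mul_pos hC0 hN
      rw [div_mul_cancel₀ _ (by positivity)]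
    rw [h1]
    have h3 : ((C * N : ℕ) : ℝ) ≤ q := by
      have : C * N ≤ q := by omega
      exact_mod_cast this
    calc UU (J + 2) (C * N) (fun n => ((g n : ℝ) : ℂ)) * ((C * N : ℕ) : ℝ) ^ (J + 3)
        ≤ μ ^ E * ((C * N : ℕ) : ℝ) ^ (J + 3) := mul_le_mul_of_nonneg_right hU (by positivity)
      _ ≤ μ ^ E * (q : ℝ) ^ (J + 3) := by
          apply mul_le_mul_of_nonneg_left _ (by positivity)
          exact pow_le_pow_left₀ (by positivity) h3 _
  have hTq : T ≤ μ * (q : ℝ) ^ (R + 2) := by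
    have h1 : T ^ E ≤ (μ * (q : ℝ) ^ (R + 2)) ^ E := by
      refine key.trans ?_
      refine (mul_le_mul_of_nonneg_left hGw (by positivity)).trans (le_of_eq ?_)
      rw [mul_pow, ← pow_mul]
      have hJE : J + 3 ≤ (R + 2) * E := by
        have h2 : J + 2 < E := Nat.lt_two_pow_self
        nlinarith
      have h3 : (R + 1 + 1) * 2 ^ (J + 1 + 1) - (J + 1 + 2) + (J + 3) = (R + 2) * E := by
        rw [hE] at hJE ⊢
        have h4 : (R + 1 + 1) * 2 ^ (J + 1 + 1) = (R + 2) * 2 ^ (J + 2) := by ring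
        rw [h4]
        omega
      generalize (R + 1 + 1) * 2 ^ (J + 1 + 1) - (J + 1 + 2) = e at h3 ⊢
      rw [← h3, pow_add]
      ring
    exact (pow_le_pow_iff_left₀ hT0 (by positivity) hE0).1 h1
  have hq2r : (q : ℝ) ≤ 4 * C1 * N := by
    have : (q : ℝ) ≤ ((2 * (2 * C1 * N) : ℕ) : ℝ) := by exact_mod_cast hq2
    push_cast at this
    linarith
  have hTN : T ≤ η * κ / 2 * (N : ℝ) ^ (R + 2) := by
    refine hTq.trans ?_
    calc μ * (q : ℝ) ^ (R + 2) ≤ μ * (4 * C1 * N) ^ (R + 2) := by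
          apply mul_le_mul_of_nonneg_left _ hμ0.le
          exact pow_le_pow_left₀ hqr.le hq2r _
      _ = η * κ / 2 * (N : ℝ) ^ (R + 2) := by
          rw [hμ, mul_pow (4 * (C1 : ℝ)) (N : ℝ)]
          field_simp
  -- the comparison
  set S : (Fin R → ℤ) → ℂ := fun t => ∑ n ∈ Finset.Icc (1 : ℤ) N, PP a₀ b₀ a b g F θ t n with hS
  have hcmp : (2 * (X : ℝ) + 1) * ∑ t ∈ box R N, ‖S t‖ ≤
      T + (2 * (X : ℝ) + 1) * ((box R N).card * (2 * X)) := by
    have h1 : (2 * (X : ℝ) + 1) * ∑ t ∈ box R N, ‖S t‖ =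
        ∑ p ∈ B, ‖S p.2‖ := by
      rw [hB, Finset.sum_product]
      simp only [Finset.sum_const, Int.card_Icc, nsmul_eq_mul]
      congr 1
      have h2 : ((X : ℤ) + 1 - -(X : ℤ)).toNat = 2 * X + 1 := by omega
      rw [h2]
      push_cast
      ring
    have h3 : (2 * (X : ℝ) + 1) * ((box R N).card * (2 * X)) = ∑ p ∈ B, 2 * (X : ℝ) := by
      rw [hB, Finset.sum_const, Finset.card_product, Int.card_Icc, nsmul_eq_mul]
      have h2 : ((X : ℤ) + 1 - -(X : ℤ)).toNat = 2 * X + 1 := by omega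
      rw [h2]
      push_cast
      ring
    rw [h1, h3, hT, ← Finset.sum_add_distrib]
    apply Finset.sum_le_sum
    intro p hp
    rw [hB, Finset.mem_product, Finset.mem_Icc] at hp
    refine (lg_diff N p.1 (PP a₀ b₀ a b g F θ p.2)
      (norm_PP a₀ b₀ a b g F θ hg hF p.2)).trans ?_
    have h4 : ((p.1.natAbs : ℕ) : ℝ) ≤ X := by
      have : p.1.natAbs ≤ X := by omega
      exact_mod_cast this
    linarith
  have hcard : (((box R N).card : ℕ) : ℝ) ≤ (3 : ℝ) ^ R * (N : ℝ) ^ R := by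
    rw [box_card, ← mul_pow]
    apply pow_le_pow_left₀ (by positivity)
    have h1 : (1 : ℝ) ≤ (N : ℝ) := by exact_mod_cast hN
    linarith
  have h5 : ((box R N).card : ℝ) * (2 * X) ≤ η / 2 * (N : ℝ) ^ (R + 1) := by
    calc ((box R N).card : ℝ) * (2 * X) ≤ ((3 : ℝ) ^ R * (N : ℝ) ^ R) * (2 * (κ * N)) :=
          mul_le_mul hcard (by linarith) (by positivity) (by positivity)
      _ ≤ ((3 : ℝ) ^ R * (N : ℝ) ^ R) * (2 * (η / (4 * 3 ^ R) * N)) := by
          apply mul_le_mul_of_nonneg_left _ (by positivity)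
          have := mul_le_mul_of_nonneg_right hκ2 hNr.le
          linarith
      _ = η / 2 * (N : ℝ) ^ (R + 1) := by
          rw [pow_succ (N : ℝ) R]
          field_simp
          ring
  have h6 : T ≤ (2 * (X : ℝ) + 1) * (η / 2 * (N : ℝ) ^ (R + 1)) := by
    refine hTN.trans ?_
    have h7 : κ * N ≤ 2 * (X : ℝ) + 1 := by
      have : (0 : ℝ) ≤ X := Nat.cast_nonneg _
      linarith
    calc η * κ / 2 * (N : ℝ) ^ (R + 2) = (κ * N) * (η / 2 * (N : ℝ) ^ (R + 1)) := by ring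
      _ ≤ _ := mul_le_mul_of_nonneg_right h7 (by positivity)
  have h8 : (2 * (X : ℝ) + 1) * ∑ t ∈ box R N, ‖S t‖ ≤
      (2 * (X : ℝ) + 1) * (η * (N : ℝ) ^ (R + 1)) := by
    refine hcmp.trans ?_
    have h9 : (2 * (X : ℝ) + 1) * ((box R N).card * (2 * X)) ≤
        (2 * (X : ℝ) + 1) * (η / 2 * (N : ℝ) ^ (R + 1)) :=
      mul_le_mul_of_nonneg_left h5 (by positivity)
    linarith
  exact le_of_mul_le_mul_left h8 (by positivity)

end Pool.Agent.H79.GUC
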